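import Pool.Agent.Helper36.CV.StmtsO

set_option autoImplicit false

namespace Pool.Agent.Helper36.CV

theorem o8_cont (l : ℝ) : ∀ n, Continuous (X l n)
  | 0 => by
      have : X l 0 = fun _ => (1 : ℝ) := by funext E; simp [X]
      rw [this]; exact continuous_const
  | 1 => by
      have : X l 1 = fun E : ℝ => E / 2 := by funext E; simp [X]
      rw [this]; fun_prop
  | 2 => by
      have : X l 2 = fun E : ℝ => (E - l) / 2 := by funext E; simp [X]
      rw [this]; fun_prop
  | (n + 3) => by
      have h0 := o8_cont l n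
      have h1 := o8_cont l (n + 1)
      have h2 := o8_cont l (n + 2)
      have : X l (n + 3) = fun E : ℝ => 2 * X l (n + 2) E * X l (n + 1) E - X l n E := by
        funext E; simp [X]
      rw [this]
      fun_prop

theorem o8_step (a b c : ℝ) (hb : 1 < |b|) (hc : 1 < |c|) (h : |a| < |b * c|) :
    1 < |2 * c * b - a| ∧ |b| < |c * (2 * c * b - a)| := by
  have h1 : |b * c| < |2 * c * b - a| := by
    have h2 : |2 * c * b| - |a| ≤ |2 * c * b - a| := abs_sub_abs_le_abs_sub _ _
    have h3 : |2 * c * b| = 2 * |b * c| := by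
      rw [show 2 * c * b = 2 * (b * c) by ring, abs_mul, abs_two]
    linarith
  have h4 : |b| ≤ |b * c| := by
    rw [abs_mul]
    nlinarith [abs_nonneg b]
  constructor
  · linarith
  · rw [abs_mul]
    nlinarith [abs_nonneg b, abs_nonneg (2 * c * b - a)]

theorem st_O8 : ST_O8 := by
  intro l E hE
  classical
  have hex : ∃ n, 1 < |X l n E| ∧ 1 < |X l (n + 1) E| := by
    by_contra hcon
    apply hE
    intro n
    by_contra h
    apply hcon
    rw [not_or, not_le, not_le] at h
    exact ⟨n, h⟩
  have hn := Nat.find_spec hex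
  have hmin : ∀ m, m < Nat.find hex → ¬ (1 < |X l m E| ∧ 1 < |X l (m + 1) E|) :=
    fun m hm => Nat.find_min hex hm
  generalize Nat.find hex = n at hn hmin
  obtain _ | k := n
  · exfalso
    have := hn.1
    simp [X] at this
  · have hk : |X l k E| ≤ 1 := by
      by_contra h
      exact hmin k (Nat.lt_succ_self k) ⟨not_le.1 h, hn.1⟩
    have hprod : |X l k E| < |X l (k + 1) E * X l (k + 2) E| := by
      rw [abs_mul]
      have h1 : 1 < |X l (k + 1) E| := hn.1
      have h2 : 1 < |X l (k + 2) E| := hn.2
      nlinarith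
    have c0 := o8_cont l k
    have c1 := o8_cont l (k + 1)
    have c2 := o8_cont l (k + 2)
    have e1 : ∀ᶠ E' in nhds E, 1 < |X l (k + 1) E'| :=
      (continuous_abs.comp c1).continuousAt.eventually_const_lt hn.1
    have e2 : ∀ᶠ E' in nhds E, 1 < |X l (k + 2) E'| :=
      (continuous_abs.comp c2).continuousAt.eventually_const_lt hn.2
    have e3 : ∀ᶠ E' in nhds E, |X l k E'| < |X l (k + 1) E' * X l (k + 2) E'| := by
      have hl : Filter.Tendsto (fun E' => |X l k E'|) (nhds E) (nhds |X l k E|) :=
        (continuous_abs.comp c0).continuousAt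
      have hr : Filter.Tendsto (fun E' => |X l (k + 1) E' * X l (k + 2) E'|) (nhds E)
          (nhds |X l (k + 1) E * X l (k + 2) E|) :=
        (continuous_abs.comp (c1.mul c2)).continuousAt
      exact hl.eventually_lt hr hprod
    obtain ⟨d, hd, hall⟩ := Metric.eventually_nhds_iff.1 ((e1.and e2).and e3)
    refine ⟨d, hd, k + 1, ?_⟩
    intro n hn' E' hE'
    have h0 := hall (show dist E' E < d by rw [Real.dist_eq]; exact hE')
    have key : ∀ m, 1 < |X l (k + m + 1) E'| ∧ 1 < |X l (k + m + 2) E'| ∧
        |X l (k + m) E'| < |X l (k + m + 1) E' * X l (k + m + 2) E'| := by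
      intro m
      induction m with
      | zero => exact ⟨h0.1.1, h0.1.2, h0.2⟩
      | succ m ih =>
        obtain ⟨i1, i2, i3⟩ := ih
        have hX : X l (k + m + 3) E' =
            2 * X l (k + m + 2) E' * X l (k + m + 1) E' - X l (k + m) E' := by
          simp [X]
        have hs := o8_step _ _ _ i1 i2 i3
        rw [← hX] at hs
        have a1 : k + (m + 1) + 1 = k + m + 2 := by omega
        have a2 : k + (m + 1) + 2 = k + m + 3 := by omega
        have a0 : k + (m + 1) = k + m + 1 := by omega
        rw [a1, a2, a0]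
        exact ⟨i2, hs.1, hs.2⟩
    obtain ⟨m, rfl⟩ := Nat.exists_eq_add_of_le hn'
    have := (key m).1
    rwa [show k + 1 + m = k + m + 1 by omega]

end Pool.Agent.Helper36.CV
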